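import Pool.Agent.Helper56.Quat.Upper

set_option autoImplicit false

open Pool.Agent.Helper56.Quat

/-- Every `Q₈`-extension of `ℚ` lies in the compositum of all `D₄`-extensions of `ℚ`; the least
number of `D₄`-extensions whose compositum contains it is exactly `3`. The same holds over every
field `k` with an ordering (in place of `ℚ`). -/
theorem Pool.Agent.Results.MP_122cec_nt.ExactlyThree.result :
    (∀ K : IntermediateField ℚ (AlgebraicClosure ℚ), IsGExt (QuaternionGroup 2) K →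
      K ≤ (⨆ L ∈ {L : IntermediateField ℚ (AlgebraicClosure ℚ) | IsGExt (DihedralGroup 4) L}, L) ∧
      IsLeast {m : ℕ | ∃ L : Fin m → IntermediateField ℚ (AlgebraicClosure ℚ),
        (∀ i, IsGExt (DihedralGroup 4) (L i)) ∧ K ≤ ⨆ i, L i} 3) ∧
    (∀ (k Ω : Type) [Field k] [LinearOrder k] [IsStrictOrderedRing k] [Field Ω] [Algebra k Ω]
      [IsAlgClosure k Ω], ∀ K : IntermediateField k Ω, IsGExt (QuaternionGroup 2) K →
      IsLeast {m : ℕ | ∃ L : Fin m → IntermediateField k Ω,
        (∀ i, IsGExt (DihedralGroup 4) (L i)) ∧ K ≤ ⨆ i, L i} 3) := by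
  have gen : ∀ (k Ω : Type) [Field k] [LinearOrder k] [IsStrictOrderedRing k] [Field Ω]
      [Algebra k Ω] [IsAlgClosure k Ω], ∀ K : IntermediateField k Ω,
      IsGExt (QuaternionGroup 2) K →
      IsLeast {m : ℕ | ∃ L : Fin m → IntermediateField k Ω,
        (∀ i, IsGExt (DihedralGroup 4) (L i)) ∧ K ≤ ⨆ i, L i} 3 := by
    intro k Ω _ _ _ _ _ _ K hK
    have : CharZero Ω := charZero_of_injective_algebraMap (algebraMap k Ω).injective
    have : IsAlgClosed Ω := IsAlgClosure.isAlgClosed k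
    have : Normal k Ω := IsAlgClosure.normal k Ω
    have : Algebra.IsAlgebraic k Ω := IsAlgClosure.isAlgebraic
    have : IsGalois k Ω := ⟨⟩
    exact main K hK
  refine ⟨fun K hK => ?_, gen⟩
  have key : ∀ (a : Algebra ℚ (AlgebraicClosure ℚ)),
      @Algebra.IsAlgebraic ℚ (AlgebraicClosure ℚ) _ _ a := fun a => by
    rw [Subsingleton.elim a (AlgebraicClosure.instAlgebra ℚ)]
    exact AlgebraicClosure.isAlgebraic ℚ
  have halg : IsAlgClosure ℚ (AlgebraicClosure ℚ) := ⟨inferInstance, key _⟩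
  have h3 := gen ℚ (AlgebraicClosure ℚ) K hK
  refine ⟨?_, h3⟩
  obtain ⟨L, hL, hKL⟩ := h3.1
  refine hKL.trans (iSup_le fun i => ?_)
  exact le_iSup₂_of_le (L i) (hL i) le_rfl
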